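import Mathlib

/-!
The tight closure argument: in a local ring of characteristic two, if the product of a regular
sequence `u` lies in the ideal of squares of the maximal ideal, then two linked ideals `P`, `Q` of
`I = (u)` and their sum cannot all define rings in which ideals are tightly closed.
-/

set_option autoImplicit false

namespace Pool.Agent.Helper10.NC

open IsLocalRing

section char2

variable {L : Type*} [CommRing L]

lemma add_pow_two_pow (h2 : (2 : L) = 0) (x y : L) (e : ℕ) :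
    (x + y) ^ 2 ^ e = x ^ 2 ^ e + y ^ 2 ^ e := by
  induction e with
  | zero => simp
  | succ e ih =>
    rw [pow_succ, pow_mul, pow_mul, pow_mul, ih]
    have : (x ^ 2 ^ e + y ^ 2 ^ e) ^ 2 = (x ^ 2 ^ e) ^ 2 + (y ^ 2 ^ e) ^ 2
        + 2 * (x ^ 2 ^ e * y ^ 2 ^ e) := by ring
    rw [this, h2, zero_mul, add_zero]

lemma pow_mem_span_range (h2 : (2 : L) = 0) {κ : Type*} (w : κ → L) {s : L}
    (hs : s ∈ Ideal.span (Set.range w)) (e : ℕ) :
    s ^ 2 ^ e ∈ Ideal.span (Set.range fun k => w k ^ 2 ^ e) := by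
  refine Submodule.span_induction (p := fun s _ => s ^ 2 ^ e ∈ _) ?_ ?_ ?_ ?_ hs
  · rintro x ⟨k, rfl⟩
    exact Ideal.subset_span ⟨k, rfl⟩
  · have : (0 : L) ^ 2 ^ e = 0 := zero_pow (by positivity)
    rw [this]; exact Ideal.zero_mem _
  · intro x y _ _ hx hy
    rw [add_pow_two_pow h2]; exact Ideal.add_mem _ hx hy
  · intro a x _ hx
    rw [smul_eq_mul, mul_pow]; exact Ideal.mul_mem_left _ _ hx

end char2

variable {L : Type*} [CommRing L]

lemma cancel_pow {ι κ : Type*} (u : ι → L) (v : κ → L) (t : L)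
    (H1 : ∀ b : ℕ, 1 ≤ b → ∀ x : L,
        t * x ∈ Ideal.span (Set.range u) ⊔ Ideal.span (Set.range fun k => v k ^ b) →
        x ∈ Ideal.span (Set.range u) ⊔ Ideal.span (Set.range fun k => v k ^ b))
    {b : ℕ} (hb : 1 ≤ b) (m : ℕ) (x : L)
    (h : t ^ m * x ∈ Ideal.span (Set.range u) ⊔ Ideal.span (Set.range fun k => v k ^ b)) :
    x ∈ Ideal.span (Set.range u) ⊔ Ideal.span (Set.range fun k => v k ^ b) := by
  induction m with
  | zero => simpa using h
  | succ m ih =>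
    apply ih
    apply H1 b hb
    rw [pow_succ', mul_assoc] at h
    exact h

/-- Colon capturing. -/
lemma colon {ι κ : Type*} (h2 : (2 : L) = 0) (u : ι → L) (v : κ → L) (t β : L) (P : Ideal L)
    (hβP : ∀ x ∈ P, β * x ∈ Ideal.span (Set.range u))
    (H1 : ∀ b : ℕ, 1 ≤ b → ∀ x : L,
        t * x ∈ Ideal.span (Set.range u) ⊔ Ideal.span (Set.range fun k => v k ^ b) →
        x ∈ Ideal.span (Set.range u) ⊔ Ideal.span (Set.range fun k => v k ^ b))
    (hIP : Ideal.span (Set.range u) ≤ P)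
    (FA : ∀ (a : Ideal L) (z : L), (∀ e : ℕ, β * z ^ 2 ^ e ∈ P ⊔
        Ideal.span ((fun w => w ^ 2 ^ e) '' (a : Set L))) → z ∈ P ⊔ a)
    {b : ℕ} (hb : 1 ≤ b) (m : ℕ) (x : L)
    (h : t ^ m * x ∈ P ⊔ Ideal.span (Set.range fun k => v k ^ b)) :
    x ∈ P ⊔ Ideal.span (Set.range fun k => v k ^ b) := by
  apply FA
  intro e
  have key : β * x ^ 2 ^ e ∈ Ideal.span (Set.range u) ⊔
      Ideal.span (Set.range fun k => v k ^ (b * 2 ^ e)) := by
    have hb' : 1 ≤ b * 2 ^ e := Nat.mul_pos hb (by positivity)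
    apply cancel_pow u v t H1 hb' (m * 2 ^ e)
    obtain ⟨π, hπ, s, hs, hsum⟩ := Submodule.mem_sup.1 h
    have e1 : t ^ (m * 2 ^ e) * (β * x ^ 2 ^ e) = β * π ^ 2 ^ e + β * s ^ 2 ^ e := by
      have : t ^ (m * 2 ^ e) * (β * x ^ 2 ^ e) = β * (t ^ m * x) ^ 2 ^ e := by
        rw [mul_pow, pow_mul]; ring
      rw [this, ← hsum, add_pow_two_pow h2, mul_add]
    rw [e1]
    apply Ideal.add_mem
    · apply Ideal.mem_sup_left
      apply hβP
      exact Ideal.pow_mem_of_mem _ hπ _ (by positivity)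
    · apply Ideal.mem_sup_right
      apply Ideal.mul_mem_left
      have := pow_mem_span_range h2 _ hs e
      simpa only [← pow_mul] using this
  refine (sup_le_sup hIP ?_) key
  rw [Ideal.span_le]
  rintro _ ⟨k, rfl⟩
  refine Ideal.subset_span ⟨v k ^ b, Ideal.subset_span ⟨k, rfl⟩, ?_⟩
  simp only [pow_mul]

/-- In a local ring, if `y` is not in an ideal `G` containing a power of the maximal ideal, then
some multiple `y w` is not in `G` while `m y w ⊆ G`. -/
lemma exists_socle [IsLocalRing L] (G : Ideal L) (k : ℕ) (hk : maximalIdeal L ^ k ≤ G) (y : L)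
    (hy : y ∉ G) :
    ∃ w : L, y * w ∉ G ∧ ∀ r ∈ maximalIdeal L, r * (y * w) ∈ G := by
  classical
  -- largest `j` with `y m^j` not in `G`
  have hex : ∃ j, ∀ r ∈ maximalIdeal L ^ j, y * r ∈ G :=
    ⟨k, fun r hr => Ideal.mul_mem_left _ _ (hk hr)⟩
  let j := Nat.find hex
  have hj : ∀ r ∈ maximalIdeal L ^ j, y * r ∈ G := Nat.find_spec hex
  have hj0 : j ≠ 0 := by
    intro h0
    rw [h0] at hj
    apply hy
    have := hj 1 (by simp)
    simpa using this
  obtain ⟨i, hi⟩ := Nat.exists_eq_succ_of_ne_zero hj0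
  have hnot : ¬ ∀ r ∈ maximalIdeal L ^ i, y * r ∈ G := by
    apply Nat.find_min hex
    change i < j
    omega
  obtain ⟨w, hw⟩ := not_forall.1 hnot
  obtain ⟨hw, hw2⟩ := Classical.not_imp.1 hw
  refine ⟨w, hw2, fun r hr => ?_⟩
  have : r * (y * w) = y * (w * r) := by ring
  rw [this]
  apply hj
  rw [hi, pow_succ]
  exact Ideal.mul_mem_mul hw hr

theorem core [IsLocalRing L] (h2 : (2 : L) = 0)
    {ι κ : Type*} [Fintype ι] [Fintype κ] (u : ι → L) (v : κ → L) (α β : L) (P Q : Ideal L)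
    (hfr : ∏ i, u i ∈ Ideal.span ((fun w => w ^ 2) '' (maximalIdeal L : Set L)))
    (hv : ∀ k, v k ∈ maximalIdeal L)
    (hPm : P ≤ maximalIdeal L) (hQm : Q ≤ maximalIdeal L)
    (hIP : Ideal.span (Set.range u) ≤ P) (hIQ : Ideal.span (Set.range u) ≤ Q)
    (hα : α ∈ P) (hβ : β ∈ Q)
    (hβP : ∀ x ∈ P, β * x ∈ Ideal.span (Set.range u))
    (hαQ : ∀ x ∈ Q, α * x ∈ Ideal.span (Set.range u))
    (hm : ∃ k : ℕ, maximalIdeal L ^ k ≤
        Ideal.span (Set.range u) ⊔ Ideal.span {α - β} ⊔ Ideal.span (Set.range v))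
    (H1 : ∀ b : ℕ, 1 ≤ b → ∀ x : L,
        (α - β) * x ∈ Ideal.span (Set.range u) ⊔ Ideal.span (Set.range fun k => v k ^ b) →
        x ∈ Ideal.span (Set.range u) ⊔ Ideal.span (Set.range fun k => v k ^ b))
    (H2 : ∀ x : L, (∏ i, u i) * x ∈ Ideal.span (Set.range fun i => u i ^ 2) ⊔
          Ideal.span {(α - β) ^ 2} ⊔ Ideal.span (Set.range fun k => v k ^ 2) →
        x ∈ Ideal.span (Set.range u) ⊔ Ideal.span {(α - β) ^ 2} ⊔
          Ideal.span (Set.range fun k => v k ^ 2))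
    (FA : ∀ (a : Ideal L) (z : L), (∀ e : ℕ, β * z ^ 2 ^ e ∈ P ⊔
        Ideal.span ((fun w => w ^ 2 ^ e) '' (a : Set L))) → z ∈ P ⊔ a)
    (FB : ∀ (a : Ideal L) (z : L), (∀ e : ℕ, α * z ^ 2 ^ e ∈ Q ⊔
        Ideal.span ((fun w => w ^ 2 ^ e) '' (a : Set L))) → z ∈ Q ⊔ a)
    (FC : ∀ (a : Ideal L) (z : L), (∀ e ≥ 1, z ^ 2 ^ e ∈ P ⊔ Q ⊔
        Ideal.span ((fun w => w ^ 2 ^ e) '' (a : Set L))) → z ∈ P ⊔ Q ⊔ a) :
    False := by
  classical
  set I : Ideal L := Ideal.span (Set.range u) with hI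
  set t : L := α - β with ht
  have cA : ∀ {b : ℕ}, 1 ≤ b → ∀ (m : ℕ) (x : L),
      t ^ m * x ∈ P ⊔ Ideal.span (Set.range fun k => v k ^ b) →
      x ∈ P ⊔ Ideal.span (Set.range fun k => v k ^ b) :=
    fun hb m x h => colon h2 u v t β P hβP H1 hIP FA hb m x h
  have cB : ∀ {b : ℕ}, 1 ≤ b → ∀ (m : ℕ) (x : L),
      t ^ m * x ∈ Q ⊔ Ideal.span (Set.range fun k => v k ^ b) →
      x ∈ Q ⊔ Ideal.span (Set.range fun k => v k ^ b) :=
    fun hb m x h => colon h2 u v t α Q hαQ H1 hIQ FB hb m x h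
  set G : Ideal L := I ⊔ Ideal.span {t} ⊔ Ideal.span (Set.range v) with hG
  set V1 : Ideal L := Ideal.span (Set.range fun k => v k ^ 1) with hV1
  have hV1' : V1 = Ideal.span (Set.range v) := by simp [hV1]
  set V2 : Ideal L := Ideal.span (Set.range fun k => v k ^ 2) with hV2
  have hV1m : V1 ≤ maximalIdeal L := by
    rw [hV1', Ideal.span_le]; rintro _ ⟨k, rfl⟩; exact hv k
  -- `β` is not in `G`
  have hβG : β ∉ G := by
    intro h
    obtain ⟨y, hy, s, hs, hsum⟩ := Submodule.mem_sup.1 h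
    obtain ⟨i, hi, r', hr', hsum2⟩ := Submodule.mem_sup.1 hy
    obtain ⟨r, rfl⟩ := Ideal.mem_span_singleton'.1 hr'
    -- β = i + r * t + s
    have hB : t ^ 1 * r ∈ Q ⊔ V1 := by
      have : t ^ 1 * r = (β - i) + (- s) := by
        rw [← hsum, ← hsum2]; ring
      rw [this]
      apply Ideal.add_mem
      · exact Ideal.mem_sup_left (Ideal.sub_mem _ hβ (hIQ hi))
      · apply Ideal.mem_sup_right; rw [hV1']; exact (Ideal.neg_mem_iff _).2 hs
    have hrQ := cB (le_refl 1) 1 r hB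
    have hA : t ^ 1 * (1 + r) ∈ P ⊔ V1 := by
      have : t ^ 1 * (1 + r) = (α - i) + (- s) := by
        have h1 : β = i + r * t + s := by rw [← hsum, ← hsum2]
        have h3 : t = α - β := ht
        calc t ^ 1 * (1 + r) = t + r * t := by ring
          _ = (α - β) + r * t := by rw [← h3]
          _ = α - (i + r * t + s) + r * t := by rw [← h1]
          _ = (α - i) + (- s) := by ring
      rw [this]
      apply Ideal.add_mem
      · exact Ideal.mem_sup_left (Ideal.sub_mem _ hα (hIP hi))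
      · apply Ideal.mem_sup_right; rw [hV1']; exact (Ideal.neg_mem_iff _).2 hs
    have hrP := cA (le_refl 1) 1 (1 + r) hA
    have h1 : (1 : L) ∈ maximalIdeal L := by
      have e1 : (1 + r) ∈ maximalIdeal L := (sup_le hPm hV1m) hrP
      have e2 : r ∈ maximalIdeal L := (sup_le hQm hV1m) hrQ
      have h5 := Ideal.sub_mem _ e1 e2
      rwa [add_sub_cancel_right] at h5
    exact (Ideal.ne_top_iff_one _).1 (maximalIdeal.isMaximal L).ne_top h1
  obtain ⟨k, hk⟩ := hm
  obtain ⟨w, hw1, hw2⟩ := exists_socle G k hk β hβG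
  -- `z = β w`; `z ^ 2 f ∈ G^[2]`
  have hsq : (∏ i, u i) * (β * w) ^ 2 ∈ Ideal.span (Set.range fun i => u i ^ 2) ⊔
          Ideal.span {t ^ 2} ⊔ V2 := by
    have hGsq : ∀ g ∈ G, g ^ 2 ∈ Ideal.span (Set.range fun i => u i ^ 2) ⊔
          Ideal.span {t ^ 2} ⊔ V2 := by
      intro g hg
      obtain ⟨y, hy, s, hs, rfl⟩ := Submodule.mem_sup.1 hg
      obtain ⟨i, hi, r', hr', rfl⟩ := Submodule.mem_sup.1 hy
      obtain ⟨r, rfl⟩ := Ideal.mem_span_singleton'.1 hr'
      have e0 : (i + r * t + s) ^ 2 = i ^ 2 + r ^ 2 * t ^ 2 + s ^ 2 := by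
        have := add_pow_two_pow h2 (i + r * t) s 1
        have h3 := add_pow_two_pow h2 i (r * t) 1
        simp only [pow_one] at this h3
        rw [this, h3, mul_pow]
      rw [e0]
      apply Ideal.add_mem
      · apply Ideal.mem_sup_left
        apply Ideal.add_mem
        · apply Ideal.mem_sup_left
          have := pow_mem_span_range h2 u hi 1
          simpa using this
        · apply Ideal.mem_sup_right
          exact Ideal.mul_mem_left _ _ (Ideal.mem_span_singleton_self _)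
      · apply Ideal.mem_sup_right
        have := pow_mem_span_range h2 v hs 1
        simpa using this
    -- write the product as a combination of squares
    have : ∀ f ∈ Ideal.span ((fun w => w ^ 2) '' (maximalIdeal L : Set L)),
        f * (β * w) ^ 2 ∈ Ideal.span (Set.range fun i => u i ^ 2) ⊔
          Ideal.span {t ^ 2} ⊔ V2 := by
      intro f hf
      refine Submodule.span_induction (p := fun f _ => f * (β * w) ^ 2 ∈ _) ?_ ?_ ?_ ?_ hf
      · rintro _ ⟨r, hr, rfl⟩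
        have := hGsq _ (hw2 r hr)
        simpa [mul_pow] using this
      · simp
      · intro a b _ _ ha hb
        rw [add_mul]; exact Ideal.add_mem _ ha hb
      · intro a b _ hb
        rw [smul_eq_mul, mul_assoc]; exact Ideal.mul_mem_left _ _ hb
    exact this _ hfr
  have hz2 := H2 _ hsq
  obtain ⟨y, hy, s', hs', hsum⟩ := Submodule.mem_sup.1 hz2
  obtain ⟨i, hi, r', hr', hsum2⟩ := Submodule.mem_sup.1 hy
  obtain ⟨s, rfl⟩ := Ideal.mem_span_singleton'.1 hr'
  have hmain : (β * w) ^ 2 = i + s * t ^ 2 + s' := by rw [← hsum, ← hsum2]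
  -- modulo `Q`
  have hsQ : s ∈ Q ⊔ V2 := by
    apply cB (by norm_num) 2 s
    have : t ^ 2 * s = β * (w * (β * w)) - i + (- s') := by
      have : (β * w) ^ 2 = β * (w * (β * w)) := by ring
      rw [← this, hmain]; ring
    rw [this]
    apply Ideal.add_mem
    · exact Ideal.mem_sup_left (Ideal.sub_mem _ (Ideal.mul_mem_right _ _ hβ) (hIQ hi))
    · exact Ideal.mem_sup_right ((Ideal.neg_mem_iff _).2 hs')
  -- modulo `P`
  have hwP : w ^ 2 - s ∈ P ⊔ V2 := by
    apply cA (by norm_num) 2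
    have : t ^ 2 * (w ^ 2 - s) = α * ((α - 2 * β) * w ^ 2) + i + s' := by
      have h1 : t ^ 2 * w ^ 2 = α * ((α - 2 * β) * w ^ 2) + (β * w) ^ 2 := by
        rw [ht]; ring
      calc t ^ 2 * (w ^ 2 - s) = t ^ 2 * w ^ 2 - s * t ^ 2 := by ring
        _ = α * ((α - 2 * β) * w ^ 2) + i + s' := by rw [h1, hmain]; ring
    rw [this]
    apply Ideal.add_mem
    · exact Ideal.mem_sup_left (Ideal.add_mem _ (Ideal.mul_mem_right _ _ hα) (hIP hi))
    · exact Ideal.mem_sup_right hs'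
  have hw2' : w ^ 2 ∈ P ⊔ Q ⊔ V2 := by
    have e1 : w ^ 2 = (w ^ 2 - s) + s := by ring
    rw [e1]
    apply Ideal.add_mem
    · exact (show P ⊔ V2 ≤ P ⊔ Q ⊔ V2 from sup_le_sup_right le_sup_left V2) hwP
    · exact (show Q ⊔ V2 ≤ P ⊔ Q ⊔ V2 from sup_le_sup_right le_sup_right V2) hsQ
  have hwC : w ∈ P ⊔ Q ⊔ V1 := by
    apply FC
    intro e he
    obtain ⟨e', rfl⟩ : ∃ e', e = e' + 1 := ⟨e - 1, by omega⟩
    have e1 : w ^ 2 ^ (e' + 1) = (w ^ 2) ^ 2 ^ e' := by
      rw [← pow_mul, pow_succ']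
    rw [e1]
    obtain ⟨π, hπ, s2, hs2, hsum3⟩ := Submodule.mem_sup.1 hw2'
    rw [← hsum3, add_pow_two_pow h2]
    apply Ideal.add_mem
    · exact Ideal.mem_sup_left (Ideal.pow_mem_of_mem _ hπ _ (by positivity))
    · apply Ideal.mem_sup_right
      have h4 := pow_mem_span_range h2 _ hs2 e'
      refine (Ideal.span_le.2 ?_) h4
      rintro _ ⟨k, rfl⟩
      refine Ideal.subset_span ⟨v k, ?_, ?_⟩
      · rw [hV1']; exact Ideal.subset_span ⟨k, rfl⟩
      · change v k ^ 2 ^ (e' + 1) = (v k ^ 2) ^ 2 ^ e'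
        rw [← pow_mul, pow_succ']
  -- conclusion
  apply hw1
  obtain ⟨y, hy, s2, hs2, hsum3⟩ := Submodule.mem_sup.1 hwC
  obtain ⟨π, hπ, κ', hκ, hsum4⟩ := Submodule.mem_sup.1 hy
  have : β * w = β * π + (α * κ' - t * κ') + β * s2 := by
    rw [← hsum3, ← hsum4, ht]; ring
  rw [this, hG]
  apply Ideal.add_mem
  · apply Ideal.add_mem
    · exact Ideal.mem_sup_left (Ideal.mem_sup_left (hβP _ hπ))
    · apply Ideal.sub_mem
      · exact Ideal.mem_sup_left (Ideal.mem_sup_left (hαQ _ hκ))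
      · exact Ideal.mem_sup_left (Ideal.mem_sup_right
          (Ideal.mul_mem_right _ _ (Ideal.mem_span_singleton_self _)))
  · apply Ideal.mem_sup_right
    rw [← hV1']; exact Ideal.mul_mem_left _ _ hs2

end Pool.Agent.Helper10.NC
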