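import Mathlib

/-!
Nearly commuting matrices: the ideals `I`, `J`, `P`, tight closure and F-regularity.
-/

set_option autoImplicit false

namespace Pool.Agent.Helper10.NC

open MvPolynomial

/-- The polynomial ring over `K` in the entries of two `n × n` matrices: the variable
`(false, i, j)` is `x_ij`, the variable `(true, i, j)` is `y_ij`. -/
abbrev Rg (n : ℕ) (K : Type*) [Field K] : Type _ := MvPolynomial (Bool × Fin n × Fin n) K

/-- The generic matrix `X = (x_ij)`. -/
noncomputable def genX (n : ℕ) (K : Type*) [Field K] : Matrix (Fin n) (Fin n) (Rg n K) :=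
  Matrix.of fun i j => X (false, i, j)

/-- The generic matrix `Y = (y_ij)`. -/
noncomputable def genY (n : ℕ) (K : Type*) [Field K] : Matrix (Fin n) (Fin n) (Rg n K) :=
  Matrix.of fun i j => X (true, i, j)

/-- The commutator `XY - YX`; its `(i, j)` entry is `u_ij`. -/
noncomputable def comm (n : ℕ) (K : Type*) [Field K] : Matrix (Fin n) (Fin n) (Rg n K) :=
  genX n K * genY n K - genY n K * genX n K

/-- The ideal `I` generated by the off-diagonal entries of the commutator. -/
noncomputable def idealI (n : ℕ) (K : Type*) [Field K] : Ideal (Rg n K) :=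
  Ideal.span {f | ∃ i j : Fin n, i ≠ j ∧ f = comm n K i j}

/-- The ideal `J` generated by all entries of the commutator. -/
noncomputable def idealJ (n : ℕ) (K : Type*) [Field K] : Ideal (Rg n K) :=
  Ideal.span {f | ∃ i j : Fin n, f = comm n K i j}

/-- The ideal `P`, the radical of `J`. -/
noncomputable def idealP (n : ℕ) (K : Type*) [Field K] : Ideal (Rg n K) :=
  (idealJ n K).radical

/-- The tight closure of an ideal `a` of a ring of characteristic `p`: the elements `z` for which
there is a `c` outside every minimal prime such that, for all large `q = p ^ e`, the element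
`c z ^ q` lies in the ideal generated by the `q`-th powers of the elements of `a`. -/
def TightClosure (p : ℕ) {S : Type*} [CommRing S] (a : Ideal S) : Set S :=
  {z | ∃ c : S, (∀ q ∈ minimalPrimes S, c ∉ q) ∧ ∃ e₀ : ℕ, ∀ e ≥ e₀,
    c * z ^ p ^ e ∈ Ideal.span ((fun w => w ^ p ^ e) '' (a : Set S))}

/-- A ring of characteristic `p` is F-regular if every ideal of every localization of it contains
its tight closure. -/
def IsFRegular (p : ℕ) (S : Type*) [CommRing S] : Prop :=
  ∀ (W : Submonoid S) (a : Ideal (Localization W)), ∀ z ∈ TightClosure p a, z ∈ a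

end Pool.Agent.Helper10.NC
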