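import Pool.Agent.Helper10.NC.Points
import Pool.Agent.Helper26.NC.Smooth

/-!
The locus where commuting and nearly commuting pairs agree.
-/

set_option autoImplicit false

namespace Pool.Agent.Helper10.NC

open MvPolynomial

variable (K : Type*) [Field K]

/-- The matrix of the diagonals of the powers of `X`. -/
noncomputable def diagMat : Matrix (Fin 4) (Fin 4) (Rg 4 K) :=
  Matrix.of fun k i => ((genX 4 K) ^ (k : ℕ)) i i

lemma trace_comm_mul_pow (k : ℕ) : (comm 4 K * (genX 4 K) ^ k).trace = 0 := by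
  unfold comm
  rw [Matrix.sub_mul, Matrix.trace_sub, sub_eq_zero, Matrix.mul_assoc, Matrix.trace_mul_comm,
    Matrix.mul_assoc, Matrix.mul_assoc, ← pow_succ, ← pow_succ']

lemma diag_sum_mem (k : ℕ) : ∑ i, ((genX 4 K) ^ k) i i * comm 4 K i i ∈ idealI 4 K := by
  have h := trace_comm_mul_pow K k
  simp only [Matrix.trace, Matrix.diag_apply, Matrix.mul_apply] at h
  have h2 : ∀ i : Fin 4, ∑ j, comm 4 K i j * ((genX 4 K) ^ k) j i =
      ((genX 4 K) ^ k) i i * comm 4 K i i +
        ∑ j ∈ Finset.univ.erase i, comm 4 K i j * ((genX 4 K) ^ k) j i := by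
    intro i
    rw [← Finset.add_sum_erase _ _ (Finset.mem_univ i), mul_comm]
  simp only [h2] at h
  rw [Finset.sum_add_distrib] at h
  rw [eq_neg_of_add_eq_zero_left h]
  refine neg_mem (Ideal.sum_mem _ fun i _ => Ideal.sum_mem _ fun j hj => ?_)
  exact Ideal.mul_mem_right _ _ (Ideal.subset_span ⟨i, j, (Finset.ne_of_mem_erase hj).symm, rfl⟩)

lemma det_mul_comm_mem (i : Fin 4) : (diagMat K).det * comm 4 K i i ∈ idealI 4 K := by
  set q := Ideal.Quotient.mk (idealI 4 K) with hq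
  have h0 : (q.mapMatrix (diagMat K)).mulVec (fun i => q (comm 4 K i i)) = 0 := by
    ext k
    have := Ideal.Quotient.eq_zero_iff_mem.2 (diag_sum_mem K k)
    rw [map_sum] at this
    simp only [map_mul] at this
    simpa [Matrix.mulVec, dotProduct, diagMat] using this
  have h1 : ((q.mapMatrix (diagMat K)).det • (1 : Matrix (Fin 4) (Fin 4) _)).mulVec
      (fun i => q (comm 4 K i i)) = 0 := by
    rw [← Matrix.adjugate_mul, ← Matrix.mulVec_mulVec, h0, Matrix.mulVec_zero]
  have h2 := congrFun h1 i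
  rw [Matrix.smul_mulVec, Matrix.one_mulVec] at h2
  rw [← Ideal.Quotient.eq_zero_iff_mem, map_mul, RingHom.map_det]
  simpa using h2

/-- The value of `X` at the point `pt1`. -/
def xpt : Matrix (Fin 4) (Fin 4) K := !![1, 0, 1, 0; 0, 1, 0, 0; 1, 0, 0, 0; 0, 0, 0, 0]

lemma eval_genX : (eval (pt1 K)).mapMatrix (genX 4 K) = xpt K := by
  ext i j
  fin_cases i <;> fin_cases j <;> simp [genX, pt1, xpt]

lemma eval_det : eval (pt1 K) (diagMat K).det ≠ 0 := by
  rw [RingHom.map_det]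
  have h : (eval (pt1 K)).mapMatrix (diagMat K) =
      Matrix.of fun (k i : Fin 4) => ((xpt K) ^ (k : ℕ)) i i := by
    ext k i
    have h3 : (xpt K) ^ (k : ℕ) = (eval (pt1 K)).mapMatrix ((genX 4 K) ^ (k : ℕ)) := by
      rw [map_pow, eval_genX]
    rw [Matrix.of_apply, h3]
    rfl
  rw [h]
  have h2 : (Matrix.of fun (k i : Fin 4) => ((xpt K) ^ (k : ℕ)) i i) =
      !![1, 1, 1, 1; 1, 1, 0, 0; 2, 1, 1, 0; 3, 1, 1, 0] := by
    ext k i
    fin_cases k <;> fin_cases i <;>
      simp [xpt, pow_succ, Matrix.mul_apply, Fin.sum_univ_succ, Matrix.one_apply] <;> norm_num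
  rw [h2]
  simp [Matrix.det_succ_row_zero, Fin.sum_univ_succ, Fin.succAbove]
  norm_num

theorem exists_delta : ∃ D : Rg 4 K, MvPolynomial.eval (pt1 K) D ≠ 0 ∧
    ∀ i j : Fin 4, D * comm 4 K i j ∈ idealI 4 K := by
  refine ⟨(diagMat K).det, eval_det K, fun i j => ?_⟩
  by_cases h : i = j
  · subst h
    exact det_mul_comm_mem K i
  · exact Ideal.mul_mem_left _ _ (Ideal.subset_span ⟨i, j, h, rfl⟩)

end Pool.Agent.Helper10.NC
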