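import Pool.Agent.Helper10.NC.Defs

/-!
F-regularity of `R ⧸ P` in terms of the local ring `R_n`.
-/

set_option autoImplicit false

namespace Pool.Agent.Helper10.NC

theorem tight_local {R : Type*} [CommRing R] (p : ℕ) (n : Ideal R) [n.IsPrime] (P : Ideal R)
    (hF : IsFRegular p (R ⧸ P)) (a : Ideal (Localization.AtPrime n))
    (z c : Localization.AtPrime n)
    (hc : ∀ q ∈ (P.map (algebraMap R (Localization.AtPrime n))).minimalPrimes, c ∉ q)
    (e₀ : ℕ)
    (h : ∀ e ≥ e₀, c * z ^ p ^ e ∈ P.map (algebraMap R (Localization.AtPrime n)) ⊔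
      Ideal.span ((fun w => w ^ p ^ e) '' (a : Set (Localization.AtPrime n)))) :
    z ∈ P.map (algebraMap R (Localization.AtPrime n)) ⊔ a := by
  classical
  let L := Localization.AtPrime n
  let g : R →+* R ⧸ P := Ideal.Quotient.mk P
  let W : Submonoid (R ⧸ P) := Submonoid.map g n.primeCompl
  have hW : n.primeCompl ≤ W.comap g := Submonoid.le_comap_map _
  let π : L →+* Localization W := IsLocalization.map (Localization W) g hW
  have hπs : Function.Surjective π :=
    IsLocalization.map_surjective_of_surjective n.primeCompl L (Localization W)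
      Ideal.Quotient.mk_surjective
  have hker : RingHom.ker π = P.map (algebraMap R L) := by
    have := IsLocalization.ker_map (S := L) (Q := Localization W) (M := n.primeCompl) (T := W)
      g rfl
    rw [Ideal.mk_ker] at this
    exact this
  have key : π z ∈ a.map π := by
    apply hF W (a.map π)
    refine ⟨π c, ?_, e₀, ?_⟩
    · intro q hq hcq
      have h1 : q.comap π ∈ (P.map (algebraMap R L)).minimalPrimes := by
        rw [← hker]
        have := Ideal.comap_minimalPrimes_eq_of_surjective hπs (⊥ : Ideal (Localization W))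
        rw [← RingHom.ker_eq_comap_bot] at this
        rw [this]
        exact ⟨q, hq, rfl⟩
      exact hc _ h1 hcq
    · intro e he
      have h1 := Ideal.mem_map_of_mem π (h e he)
      rw [Ideal.map_sup, map_mul, map_pow] at h1
      have h2 : (P.map (algebraMap R L)).map π = ⊥ := by
        rw [← hker, Ideal.map_eq_bot_iff_le_ker]
      rw [h2, bot_sup_eq, Ideal.map_span] at h1
      refine Ideal.span_mono ?_ h1
      rintro _ ⟨_, ⟨w, hw, rfl⟩, rfl⟩
      exact ⟨π w, Ideal.mem_map_of_mem π hw, (map_pow π w _).symm⟩
  obtain ⟨y, hy, hyz⟩ := (Ideal.mem_map_iff_of_surjective π hπs).1 key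
  have : z - y ∈ RingHom.ker π := by
    rw [RingHom.mem_ker, map_sub, hyz, sub_self]
  rw [hker] at this
  have e1 : z = (z - y) + y := by ring
  rw [e1]
  exact Ideal.add_mem _ (Ideal.mem_sup_left this) (Ideal.mem_sup_right hy)

end Pool.Agent.Helper10.NC
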