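import Pool.Agent.Helper10.NC.Defs

/-!
Two points of the scheme of pairs with diagonal commutator where the Jacobian has full rank.
-/

set_option autoImplicit false

namespace Pool.Agent.Helper10.NC

open MvPolynomial

variable (K : Type*) [Field K]

/-- The off-diagonal positions. -/
abbrev Off : Type := {p : Fin 4 × Fin 4 // p.1 ≠ p.2}

/-- The twelve off-diagonal entries of the commutator. -/
noncomputable def uu : Off → Rg 4 K := fun p => comm 4 K p.1.1 p.1.2

lemma idealI_eq : idealI 4 K = Ideal.span (Set.range (uu K)) := by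
  unfold idealI uu
  congr 1
  ext f
  constructor
  · rintro ⟨i, j, hij, rfl⟩
    exact ⟨⟨(i, j), hij⟩, rfl⟩
  · rintro ⟨⟨⟨i, j⟩, hij⟩, rfl⟩
    exact ⟨i, j, hij, rfl⟩

lemma comm_apply (i j : Fin 4) :
    comm 4 K i j = ∑ k, (X (false, i, k) * X (true, k, j) - X (true, i, k) * X (false, k, j)) := by
  simp [comm, genX, genY, Matrix.mul_apply, Finset.sum_sub_distrib]

lemma eval_comm (a : Bool × Fin 4 × Fin 4 → K) (i j : Fin 4) :
    eval a (comm 4 K i j) =
      ∑ k, (a (false, i, k) * a (true, k, j) - a (true, i, k) * a (false, k, j)) := by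
  rw [comm_apply]; simp

lemma eval_pderiv_comm (a : Bool × Fin 4 × Fin 4 → K) (i j : Fin 4) (v : Bool × Fin 4 × Fin 4) :
    eval a (pderiv v (comm 4 K i j)) =
      ∑ k, (((if (true, k, j) = v then a (false, i, k) else 0) +
        (if (false, i, k) = v then a (true, k, j) else 0)) -
        ((if (false, k, j) = v then a (true, i, k) else 0) +
        (if (true, i, k) = v then a (false, k, j) else 0))) := by
  rw [comm_apply]
  simp only [map_sum, map_sub]
  refine Finset.sum_congr rfl fun k _ => ?_
  have h : ∀ w w' : Bool × Fin 4 × Fin 4, eval a (pderiv v (X w * X w' : Rg 4 K)) =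
      (if w' = v then a w else 0) + (if w = v then a w' else 0) := by
    intro w w'
    rw [Derivation.leibniz, pderiv_X, pderiv_X, smul_eq_mul, smul_eq_mul, map_add, map_mul,
      map_mul, eval_X, eval_X]
    simp only [Pi.single_apply]
    split_ifs <;> simp
  rw [h, h]

/-- The point `X = E11 + E13 + E22 + E31`, `Y = 0`. -/
def pt1 : Bool × Fin 4 × Fin 4 → K := fun v =>
  if v = (false, 0, 0) ∨ v = (false, 0, 2) ∨ v = (false, 1, 1) ∨ v = (false, 2, 0) then 1 else 0

/-- The point `X = E13 + E21`, `Y = E12 + E24`. -/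
def pt2 : Bool × Fin 4 × Fin 4 → K := fun v =>
  if v = (false, 0, 2) ∨ v = (false, 1, 0) ∨ v = (true, 0, 1) ∨ v = (true, 1, 3) then 1 else 0

lemma eval_pt1 (i j : Fin 4) : eval (pt1 K) (comm 4 K i j) = 0 := by
  rw [eval_comm]
  fin_cases i <;> fin_cases j <;> simp [pt1]

lemma eval_pt2 (i j : Fin 4) : eval (pt2 K) (comm 4 K i j) =
    if i = 0 ∧ j = 0 then -1 else if i = 1 ∧ j = 1 then 1 else 0 := by
  rw [eval_comm]
  fin_cases i <;> fin_cases j <;> simp [pt2]


/-- A linear relation between the differentials, in matrix form. -/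
lemma rel_matrix (a : Bool × Fin 4 × Fin 4 → K) (g : Off → K)
    (hg : ∑ p : Off, g p • (fun v => eval a (pderiv v (uu K p))) = 0) :
    ∃ h : Fin 4 → Fin 4 → K, (∀ i, h i i = 0) ∧ (∀ p : Off, g p = h p.1.1 p.1.2) ∧
      (∀ b c, ∑ j, h b j * a (true, c, j) = ∑ i, h i c * a (true, i, b)) ∧
      (∀ b c, ∑ j, h b j * a (false, c, j) = ∑ i, h i c * a (false, i, b)) := by
  classical
  let h : Fin 4 → Fin 4 → K := fun i j => if hij : i ≠ j then g ⟨(i, j), hij⟩ else 0
  have hh : ∀ p : Off, g p = h p.1.1 p.1.2 := by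
    rintro ⟨⟨i, j⟩, hij⟩
    change g _ = if hij : i ≠ j then g ⟨(i, j), hij⟩ else 0
    rw [dif_pos hij]
  have h0 : ∀ i, h i i = 0 := fun i => by simp [h]
  have key : ∀ v, ∑ i, ∑ j, h i j * eval a (pderiv v (comm 4 K i j)) = 0 := by
    intro v
    have h1 := congrFun hg v
    rw [Finset.sum_apply] at h1
    simp only [Pi.smul_apply, smul_eq_mul, Pi.zero_apply] at h1
    have h2 : ∑ p : Off, g p * eval a (pderiv v (uu K p)) =
        ∑ p ∈ (Finset.univ : Finset (Fin 4 × Fin 4)).filter (fun p => p.1 ≠ p.2),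
          h p.1 p.2 * eval a (pderiv v (comm 4 K p.1 p.2)) := by
      rw [Finset.sum_subtype (p := fun p : Fin 4 × Fin 4 => p.1 ≠ p.2)
        ((Finset.univ : Finset (Fin 4 × Fin 4)).filter (fun p => p.1 ≠ p.2)) (by simp)]
      refine Finset.sum_congr rfl fun p _ => ?_
      rw [hh p]; rfl
    rw [h2, Finset.sum_filter_of_ne] at h1
    · rw [Fintype.sum_prod_type] at h1
      exact h1
    · intro p _ hp hpp
      apply hp
      rw [hpp, h0, zero_mul]
  refine ⟨h, h0, hh, ?_, ?_⟩
  · intro b c
    have h1 := key (false, b, c)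
    simp only [eval_pderiv_comm] at h1
    have h2 : ∀ i j, ∑ k, (((if (true, k, j) = (false, b, c) then a (false, i, k) else 0) +
        (if (false, i, k) = (false, b, c) then a (true, k, j) else 0)) -
        ((if (false, k, j) = (false, b, c) then a (true, i, k) else 0) +
        (if (true, i, k) = (false, b, c) then a (false, k, j) else 0))) =
        (if i = b then a (true, c, j) else 0) - (if j = c then a (true, i, b) else 0) := by
      intro i j
      simp only [Prod.mk.injEq, Bool.true_eq_false, false_and, if_false,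
        zero_add, add_zero, true_and, Finset.sum_sub_distrib]
      congr 1
      · by_cases hi : i = b
        · simp [hi]
        · simp [hi]
      · by_cases hj : j = c
        · simp [hj]
        · simp [hj]
    simp only [h2] at h1
    simp only [mul_sub, Finset.sum_sub_distrib, mul_ite, mul_zero] at h1
    rw [sub_eq_zero] at h1
    rw [Finset.sum_comm] at h1
    simp only [Finset.sum_ite_eq', Finset.mem_univ, if_true] at h1
    exact h1
  · intro b c
    have h1 := key (true, b, c)
    simp only [eval_pderiv_comm] at h1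
    have h2 : ∀ i j, ∑ k, (((if (true, k, j) = (true, b, c) then a (false, i, k) else 0) +
        (if (false, i, k) = (true, b, c) then a (true, k, j) else 0)) -
        ((if (false, k, j) = (true, b, c) then a (true, i, k) else 0) +
        (if (true, i, k) = (true, b, c) then a (false, k, j) else 0))) =
        (if j = c then a (false, i, b) else 0) - (if i = b then a (false, c, j) else 0) := by
      intro i j
      simp only [Prod.mk.injEq, Bool.false_eq_true, false_and, if_false,
        zero_add, add_zero, true_and, Finset.sum_sub_distrib]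
      congr 1
      · by_cases hj : j = c
        · simp [hj]
        · simp [hj]
      · by_cases hi : i = b
        · simp [hi]
        · simp [hi]
    simp only [h2] at h1
    simp only [mul_sub, Finset.sum_sub_distrib, mul_ite, mul_zero] at h1
    rw [sub_eq_zero] at h1
    symm at h1
    rw [Finset.sum_comm] at h1
    simp only [Finset.sum_ite_eq', Finset.mem_univ, if_true] at h1
    exact h1

lemma all_zero (h : Fin 4 → Fin 4 → K) (h00 : ∀ i, h i i = 0)
    (h01 : h 0 1 = 0) (h02 : h 0 2 = 0) (h03 : h 0 3 = 0)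
    (h10 : h 1 0 = 0) (h12 : h 1 2 = 0) (h13 : h 1 3 = 0)
    (h20 : h 2 0 = 0) (h21 : h 2 1 = 0) (h23 : h 2 3 = 0)
    (h30 : h 3 0 = 0) (h31 : h 3 1 = 0) (h32 : h 3 2 = 0) (i j : Fin 4) : h i j = 0 := by
  fin_cases i <;> fin_cases j <;>
    first
      | exact h00 _ | exact h01 | exact h02 | exact h03 | exact h10 | exact h12 | exact h13
      | exact h20 | exact h21 | exact h23 | exact h30 | exact h31 | exact h32

theorem jac_pt1 : LinearIndependent K
    (fun i => (fun v => eval (pt1 K) (pderiv v (uu K i))) : Off → Bool × Fin 4 × Fin 4 → K) := by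
  rw [Fintype.linearIndependent_iff]
  intro g hg i
  obtain ⟨h, h0, hh, -, h2⟩ := rel_matrix K (pt1 K) g hg
  rw [hh i]
  have e00 := h2 0 0
  have e10 := h2 1 0
  have e20 := h2 2 0
  have e30 := h2 3 0
  have e01 := h2 0 1
  have e21 := h2 2 1
  have e31 := h2 3 1
  have e02 := h2 0 2
  have e12 := h2 1 2
  have e32 := h2 3 2
  have e03 := h2 0 3
  have e13 := h2 1 3
  have e23 := h2 2 3
  simp [Fin.sum_univ_four, pt1, h0] at e00 e10 e20 e30 e01 e21 e31 e02 e12 e32 e03 e13 e23
  refine all_zero K h h0 (by rw [← e21, e01]) e02.symm e23.symm (by rw [e12, e10]) e10 e13.symm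
    e20 e01 ?_ e32 e31 ?_ _ _
  · rw [← e23, zero_add] at e03
    exact e03.symm
  · rw [e32, zero_add] at e30
    exact e30

theorem jac_pt2 : LinearIndependent K
    (fun i => (fun v => eval (pt2 K) (pderiv v (uu K i))) : Off → Bool × Fin 4 × Fin 4 → K) := by
  rw [Fintype.linearIndependent_iff]
  intro g hg i
  obtain ⟨h, h0, hh, h1, h2⟩ := rel_matrix K (pt2 K) g hg
  rw [hh i]
  have e30 := h2 3 0
  have e11 := h2 1 1
  have e21 := h2 2 1
  have e31 := h2 3 1
  have e22 := h2 2 2
  have e02 := h2 0 2
  have e23 := h2 2 3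
  have e03 := h2 0 3
  have f00 := h1 0 0
  have f20 := h1 2 0
  have f30 := h1 3 0
  have f21 := h1 2 1
  simp [pt2] at e30 e11 e21 e31 e22 e02 e23 e03 f00 f20 f30 f21
  exact all_zero K h h0 f00 e22.symm e23.symm e11 e02.symm e03.symm (e21.trans f00) f20 f21 e31
    (f30.trans e11) e30 _ _

end Pool.Agent.Helper10.NC
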