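import Pool.Agent.Helper10.NC.Core
import Pool.Agent.Helper10.NC.Glue
import Pool.Agent.Helper10.NC.Points
import Pool.Agent.Helper26.NC.Smooth
import Pool.Agent.Helper93.NC.Frob

/-!
Assembly, part 1: dimension count and the Frobenius step.
-/

set_option autoImplicit false

namespace Pool.Agent.Helper10.NC

open MvPolynomial IsLocalRing RingTheory.Sequence

lemma dim_quot_le {L : Type*} [CommRing L] (d h : ℕ) (hL : ringKrullDim L = d)
    (I : Ideal L) (hI : ∀ q ∈ I.minimalPrimes, (h : ℕ∞) ≤ q.height) (hne : I ≠ ⊤) :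
    ringKrullDim (L ⧸ I) + h ≤ d := by
  have step : ∀ (p : LTSeries (PrimeSpectrum (L ⧸ I))) (i : ℕ) (hi : i < p.length + 1),
      ((h + i : ℕ) : ℕ∞) ≤ ((p ⟨i, hi⟩).asIdeal.comap (Ideal.Quotient.mk I)).height := by
    intro p i
    induction i with
    | zero =>
      intro hi
      have hle : I ≤ (p ⟨0, hi⟩).asIdeal.comap (Ideal.Quotient.mk I) := by
        intro x hx
        rw [Ideal.mem_comap, Ideal.Quotient.eq_zero_iff_mem.2 hx]
        exact zero_mem _
      obtain ⟨q, hq, hqp⟩ := Ideal.exists_minimalPrimes_le hle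
      simpa using (hI q hq).trans (Ideal.height_mono hqp)
    | succ i ih =>
      intro hi
      have h1 := ih (by omega)
      have hlt : (p ⟨i, by omega⟩).asIdeal.comap (Ideal.Quotient.mk I) <
          (p ⟨i + 1, hi⟩).asIdeal.comap (Ideal.Quotient.mk I) := by
        have h2 : p ⟨i, by omega⟩ < p ⟨i + 1, hi⟩ := p.strictMono (by simp [Fin.lt_def])
        refine lt_of_le_of_ne (Ideal.comap_mono h2.le) fun h3 => ?_
        apply h2.ne
        ext1
        exact Ideal.comap_injective_of_surjective _ Ideal.Quotient.mk_surjective h3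
      have h3 := Ideal.height_add_one_le_of_lt_of_isPrime hlt
      refine le_trans ?_ h3
      push_cast at h1 ⊢
      rw [← add_assoc]
      gcongr
  have hhd : h ≤ d := by
    obtain ⟨q, hq⟩ := Ideal.nonempty_minimalPrimes hne
    have : q.IsPrime := hq.1.1
    have h1 := hI q hq
    have h2 := Ideal.height_le_ringKrullDim_of_isPrime (I := q)
    rw [hL] at h2
    have h3 : ((h : ℕ∞) : WithBot ℕ∞) ≤ (d : WithBot ℕ∞) := le_trans (by exact_mod_cast h1) h2
    exact_mod_cast h3
  have main : ringKrullDim (L ⧸ I) ≤ ((d - h : ℕ) : WithBot ℕ∞) := by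
    refine iSup_le fun p => ?_
    have h1 := step p p.length (by omega)
    have h2 := Ideal.height_le_ringKrullDim_of_isPrime
      (I := (p ⟨p.length, by omega⟩).asIdeal.comap (Ideal.Quotient.mk I))
    rw [hL] at h2
    have h3 : (((h + p.length : ℕ) : ℕ∞) : WithBot ℕ∞) ≤ (d : WithBot ℕ∞) :=
      le_trans (by exact_mod_cast h1) h2
    have h4 : h + p.length ≤ d := by exact_mod_cast h3
    have h5 : p.length ≤ d - h := by omega
    exact_mod_cast h5
  calc ringKrullDim (L ⧸ I) + h ≤ ((d - h : ℕ) : WithBot ℕ∞) + h := by gcongr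
    _ = ((d - h + h : ℕ) : WithBot ℕ∞) := by push_cast; rfl
    _ = d := by rw [Nat.sub_add_cancel hhd]
    _ ≤ d := le_rfl

/-- The product of the off-diagonal entries lies in the ideal of the squares of the variables. -/
lemma prod_mem (K : Type*) [Field K] [CharP K 2] :
    ∏ i, uu K i ∈ Ideal.span (Set.range fun v => (X v : Rg 4 K) ^ 2) := by
  classical
  rw [← Ideal.Quotient.eq_zero_iff_mem]
  set J : Ideal (Rg 4 K) := Ideal.span (Set.range fun v => (X v : Rg 4 K) ^ 2) with hJ
  have h2 : (2 : Rg 4 K) = 0 := by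
    have := CharP.cast_eq_zero (Rg 4 K) 2
    exact_mod_cast this
  have h2' : (2 : Rg 4 K ⧸ J) = 0 := by
    have h3 : Ideal.Quotient.mk J 2 = 0 := by rw [h2, map_zero]
    exact h3
  have hsq : ∀ v, (Ideal.Quotient.mk J (X v)) ^ 2 = 0 := by
    intro v
    rw [← map_pow]
    exact Ideal.Quotient.eq_zero_iff_mem.2 (Ideal.subset_span ⟨v, rfl⟩)
  have h := frob_vanish h2' (fun i j => Ideal.Quotient.mk J (X (false, i, j)))
    (fun i j => Ideal.Quotient.mk J (X (true, i, j))) (fun i j => hsq _) (fun i j => hsq _)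
  rw [Finset.prod_subtype (p := fun p : Fin 4 × Fin 4 => p.1 ≠ p.2)
    ((Finset.univ : Finset (Fin 4 × Fin 4)).filter (fun p => p.1 ≠ p.2)) (by simp)] at h
  rw [map_prod, ← h]
  refine Finset.prod_congr rfl fun p _ => ?_
  unfold uu
  rw [comm_apply, map_sum]
  refine Finset.sum_congr rfl fun k _ => ?_
  rw [map_sub, map_mul, map_mul, sub_eq_add_neg]
  congr 1
  rw [neg_eq_iff_add_eq_zero, ← two_mul, h2', zero_mul]

end Pool.Agent.Helper10.NC
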