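import Pool.Agent.Helper10.NC.Points
import Pool.Agent.Helper26.NC.Smooth

/-!
Minimal primes of the homogeneous ideal `I` lie in the ideal of the origin.
-/

set_option autoImplicit false

namespace Pool.Agent.Helper10.NC

open MvPolynomial

attribute [local instance] MvPolynomial.gradedAlgebra

variable (K : Type*) [Field K]

lemma comm_homogeneous (i j : Fin 4) : (comm 4 K i j).IsHomogeneous 2 := by
  rw [comm_apply]
  refine IsHomogeneous.sum _ _ _ fun k _ => ?_
  exact ((isHomogeneous_X K _).mul (isHomogeneous_X K _)).sub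
    ((isHomogeneous_X K _).mul (isHomogeneous_X K _))

lemma idealI_homogeneous :
    (idealI 4 K).IsHomogeneous (homogeneousSubmodule (Bool × Fin 4 × Fin 4) K) := by
  unfold idealI
  apply Ideal.homogeneous_span
  rintro _ ⟨i, j, -, rfl⟩
  exact ⟨2, comm_homogeneous K i j⟩

theorem minimalPrime_le_zero (p : Ideal (Rg 4 K)) (hp : p ∈ (idealI 4 K).minimalPrimes) :
    p ≤ ptIdeal (0 : Bool × Fin 4 × Fin 4 → K) := by
  have hpp : p.IsPrime := hp.1.1
  set c := (p.homogeneousCore (homogeneousSubmodule (Bool × Fin 4 × Fin 4) K)).toIdeal with hc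
  have hcp : c.IsPrime := Ideal.IsPrime.homogeneousCore hpp
  have hcle : c ≤ p := Ideal.toIdeal_homogeneousCore_le _ _
  have hIc : idealI 4 K ≤ c := by
    have h1 := (idealI_homogeneous K).toIdeal_homogeneousCore_eq_self
    rw [← h1, hc]
    exact Ideal.homogeneousCore_mono _ hp.1.2
  have hpc : p ≤ c := hp.2 ⟨hcp, hIc⟩ hcle
  intro f hf
  rw [mem_ptIdeal]
  have h1 : homogeneousComponent 0 f ∈ c := by
    exact homogeneousComponent_mem_of_mem
      (p.homogeneousCore (homogeneousSubmodule (Bool × Fin 4 × Fin 4) K)).isHomogeneous (hpc hf) 0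
  rw [homogeneousComponent_zero] at h1
  by_contra hne
  rw [← constantCoeff_eq] at h1
  have h3 : constantCoeff f ≠ 0 := by
    intro h4
    apply hne
    have : eval (0 : Bool × Fin 4 × Fin 4 → K) f = constantCoeff f := by
      rw [MvPolynomial.eval_zero]
    rw [this, h4]
  apply hcp.ne_top
  exact Ideal.eq_top_of_isUnit_mem _ h1 ((isUnit_iff_ne_zero.2 h3).map C)

end Pool.Agent.Helper10.NC
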