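import Pool.Agent.Helper10.NC.Final

/-!
Assembly, part 2: the theorem in the local ring at the origin.
-/

set_option autoImplicit false

namespace Pool.Agent.Helper10.NC

open MvPolynomial IsLocalRing RingTheory.Sequence

/-- The ideal of the origin. -/
noncomputable abbrev OO (K : Type*) [Field K] : Ideal (Rg 4 K) :=
  ptIdeal (0 : Bool × Fin 4 × Fin 4 → K)

/-- The local ring at the origin. -/
abbrev LL (K : Type*) [Field K] : Type _ := Localization.AtPrime (OO K)

lemma map_le_max (K : Type*) [Field K] {P : Ideal (Rg 4 K)} (hP : P ≤ OO K) :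
    P.map (algebraMap (Rg 4 K) (LL K)) ≤ maximalIdeal (LL K) := by
  rw [← IsLocalization.AtPrime.map_eq_maximalIdeal (OO K) (LL K)]
  exact Ideal.map_mono hP

theorem final_local (K : Type*) [Field K] [CharP K 2] (P Q : Ideal (Rg 4 K))
    (hIP : Ideal.span (Set.range (uu K)) ≤ P) (hIQ : Ideal.span (Set.range (uu K)) ≤ Q)
    (hP : P ≤ OO K) (hQ : Q ≤ OO K)
    (hPp : (P.map (algebraMap (Rg 4 K) (LL K))).IsPrime)
    (hQp : (Q.map (algebraMap (Rg 4 K) (LL K))).IsPrime)
    (hPQ : P ⊓ Q ≤ (Ideal.span (Set.range (uu K))).radical)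
    (htP : (12 : ℕ∞) ≤ (P.map (algebraMap (Rg 4 K) (LL K))).height)
    (htQ : (12 : ℕ∞) ≤ (Q.map (algebraMap (Rg 4 K) (LL K))).height)
    (α β : Rg 4 K)
    (hβP : ∀ x ∈ P, β * x ∈ Ideal.span (Set.range (uu K)))
    (hβn : algebraMap (Rg 4 K) (LL K) β ∉ P.map (algebraMap (Rg 4 K) (LL K)))
    (hβQ : β ∈ Q)
    (hαQ : ∀ x ∈ Q, α * x ∈ Ideal.span (Set.range (uu K)))
    (hαn : algebraMap (Rg 4 K) (LL K) α ∉ Q.map (algebraMap (Rg 4 K) (LL K)))
    (FP : IsFRegular 2 (Rg 4 K ⧸ P)) (FQ : IsFRegular 2 (Rg 4 K ⧸ Q))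
    (FPQ : IsFRegular 2 (Rg 4 K ⧸ (P ⊔ Q))) : False := by
  classical
  set φ : Rg 4 K →+* LL K := algebraMap (Rg 4 K) (LL K) with hφ
  set PL := P.map φ with hPL
  set QL := Q.map φ with hQL
  set u : Off → LL K := fun i => φ (uu K i) with hu
  have hIL : (Ideal.span (Set.range (uu K))).map φ = Ideal.span (Set.range u) := by
    rw [Ideal.map_span, ← Set.range_comp]; rfl
  set IL : Ideal (LL K) := Ideal.span (Set.range u) with hILdef
  have hIPL : IL ≤ PL := by rw [← hIL]; exact Ideal.map_mono hIP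
  have hIQL : IL ≤ QL := by rw [← hIL]; exact Ideal.map_mono hIQ
  have hPm : PL ≤ maximalIdeal (LL K) := map_le_max K hP
  have hQm : QL ≤ maximalIdeal (LL K) := map_le_max K hQ
  -- multiplication into `IL`
  have hβPL : ∀ x ∈ PL, φ β * x ∈ IL := by
    intro x hx
    have h1 : Ideal.span {φ β} * PL ≤ IL := by
      rw [← hIL, ← Set.image_singleton, ← Ideal.map_span, ← Ideal.map_mul]
      apply Ideal.map_mono
      rw [Ideal.mul_le]
      intro r hr s hs
      obtain ⟨c, rfl⟩ := Ideal.mem_span_singleton'.1 hr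
      rw [mul_assoc]
      exact Ideal.mul_mem_left _ _ (hβP s hs)
    exact h1 (Ideal.mul_mem_mul (Ideal.mem_span_singleton_self _) hx)
  have hαQL : ∀ x ∈ QL, φ α * x ∈ IL := by
    intro x hx
    have h1 : Ideal.span {φ α} * QL ≤ IL := by
      rw [← hIL, ← Set.image_singleton, ← Ideal.map_span, ← Ideal.map_mul]
      apply Ideal.map_mono
      rw [Ideal.mul_le]
      intro r hr s hs
      obtain ⟨c, rfl⟩ := Ideal.mem_span_singleton'.1 hr
      rw [mul_assoc]
      exact Ideal.mul_mem_left _ _ (hαQ s hs)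
    exact h1 (Ideal.mul_mem_mul (Ideal.mem_span_singleton_self _) hx)
  have hβQL : φ β ∈ QL := Ideal.mem_map_of_mem φ hβQ
  have hαPL : φ α ∈ PL := by
    have h1 := hIPL (hαQL _ hβQL)
    exact (hPp.mem_or_mem h1).resolve_right hβn
  -- minimal primes
  have hmin : ∀ q ∈ IL.minimalPrimes, q = PL ∨ q = QL := by
    intro q hq
    have hqp : q.IsPrime := hq.1.1
    have h1 : PL * QL ≤ q := by
      calc PL * QL = (P * Q).map φ := (Ideal.map_mul φ P Q).symm
        _ ≤ ((Ideal.span (Set.range (uu K))).radical).map φ :=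
            Ideal.map_mono (Ideal.mul_le_inf.trans hPQ)
        _ ≤ ((Ideal.span (Set.range (uu K))).map φ).radical := Ideal.map_radical_le φ
        _ ≤ q := by
            rw [hIL]
            exact (hqp.radical_le_iff).2 hq.1.2
    rcases (hqp.mul_le).1 h1 with h2 | h2
    · exact Or.inl (le_antisymm (hq.2 ⟨hPp, hIPL⟩ h2) h2)
    · exact Or.inr (le_antisymm (hq.2 ⟨hQp, hIQL⟩ h2) h2)
  have h2L : (2 : LL K) = 0 := by
    have h3 : (2 : Rg 4 K) = 0 := by
      have := CharP.cast_eq_zero (Rg 4 K) 2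
      exact_mod_cast this
    have h4 : φ 2 = 0 := by rw [h3, map_zero]
    rwa [map_ofNat] at h4
  obtain ⟨rs, hrs, hreg, -, hdimL⟩ := local_reg (0 : Bool × Fin 4 × Fin 4 → K)
  have hcard : Fintype.card (Bool × Fin 4 × Fin 4) = 32 := by simp
  have hcardO : Fintype.card Off = 12 := by decide
  rw [hcard] at hrs hdimL
  have hILm : IL ≤ maximalIdeal (LL K) := hIPL.trans hPm
  have hdim : ringKrullDim (LL K ⧸ IL) + Fintype.card Off ≤ rs.length := by
    rw [hcardO, hrs]
    refine dim_quot_le 32 12 (by exact_mod_cast hdimL) IL ?_ ?_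
    · intro q hq
      rcases hmin q hq with rfl | rfl
      · exact_mod_cast htP
      · exact_mod_cast htQ
    · exact ne_top_of_le_ne_top (IsLocalRing.maximalIdeal.isMaximal _).ne_top hILm
  set t : LL K := φ α - φ β with ht
  have htm : t ∈ maximalIdeal (LL K) :=
    Ideal.sub_mem _ (hPm hαPL) (hQm hβQL)
  have htmin : ∀ q ∈ IL.minimalPrimes, t ∉ q := by
    intro q hq htq
    rcases hmin q hq with rfl | rfl
    · apply hβn
      have := Ideal.sub_mem _ hαPL htq
      rwa [ht, sub_sub_cancel] at this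
    · apply hαn
      have := Ideal.add_mem _ htq hβQL
      rwa [ht, sub_add_cancel] at this
  obtain ⟨d, v, hv, hm, H1, H2⟩ := exists_system rs hreg (by rw [hdimL, hrs]) u
    (fun i => hILm (Ideal.subset_span ⟨i, rfl⟩)) hdim (by rw [hcardO, hrs]; norm_num) t htm htmin
  refine core h2L u v (φ α) (φ β) PL QL ?_ hv hPm hQm hIPL hIQL hαPL hβQL hβPL hαQL hm H1 H2
    ?_ ?_ ?_
  · -- the Frobenius step
    have h1 := Ideal.mem_map_of_mem φ (prod_mem K)
    rw [map_prod, Ideal.map_span, ← Set.range_comp] at h1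
    refine Ideal.span_mono ?_ h1
    rintro _ ⟨w, rfl⟩
    refine ⟨φ (X w), ?_, by simp⟩
    rw [← IsLocalization.AtPrime.map_eq_maximalIdeal (OO K) (LL K)]
    apply Ideal.mem_map_of_mem
    rw [mem_ptIdeal]
    simp
  · intro a z h
    refine tight_local 2 (OO K) P FP a z (φ β) ?_ 0 fun e _ => h e
    intro q hq
    rw [Ideal.minimalPrimes_eq_subsingleton_self, Set.mem_singleton_iff] at hq
    rw [hq]
    exact hβn
  · intro a z h
    refine tight_local 2 (OO K) Q FQ a z (φ α) ?_ 0 fun e _ => h e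
    intro q hq
    rw [Ideal.minimalPrimes_eq_subsingleton_self, Set.mem_singleton_iff] at hq
    rw [hq]
    exact hαn
  · intro a z h
    have h1 := tight_local 2 (OO K) (P ⊔ Q) FPQ a z 1 (fun q hq h1 =>
      hq.1.1.ne_top ((Ideal.eq_top_iff_one q).2 h1)) 1 (fun e he => by
        rw [one_mul, Ideal.map_sup]
        exact h e he)
    rwa [Ideal.map_sup] at h1

end Pool.Agent.Helper10.NC
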