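import Pool.Agent.Helper10.NC.Local
import Pool.Agent.Helper10.NC.Delta
import Pool.Agent.Helper10.NC.Homog
import Pool.Agent.Helper26.NC.Prime

/-!
Assembly, part 3: the theorem for the colon ideal `Q = rad I : P`.
-/

set_option autoImplicit false

namespace Pool.Agent.Helper10.NC

open MvPolynomial IsLocalRing RingTheory.Sequence

/-- An ideal `A` with `I ≤ A ≤ p`, `p` a minimal prime of `I` at the origin with height at least
`12`, whose extension to the local ring is prime. -/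
lemma map_eq_of_minimal (K : Type*) [Field K] (A p : Ideal (Rg 4 K))
    (hIA : idealI 4 K ≤ A) (hAp : A ≤ p) (hp : p ∈ (idealI 4 K).minimalPrimes)
    (hA : (A.map (algebraMap (Rg 4 K) (LL K))).IsPrime) :
    A.map (algebraMap (Rg 4 K) (LL K)) = p.map (algebraMap (Rg 4 K) (LL K)) ∧
      (A.map (algebraMap (Rg 4 K) (LL K))).height = p.height ∧
      ∀ x, algebraMap (Rg 4 K) (LL K) x ∈ A.map (algebraMap (Rg 4 K) (LL K)) → x ∈ p := by
  have hpp : p.IsPrime := hp.1.1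
  have hpO := minimalPrime_le_zero K p hp
  have hdisj : Disjoint ((OO K).primeCompl : Set (Rg 4 K)) (p : Set (Rg 4 K)) := by
    rw [Set.disjoint_left]
    intro x hx hxp
    exact hx (hpO hxp)
  have hcomap : (p.map (algebraMap (Rg 4 K) (LL K))).comap (algebraMap (Rg 4 K) (LL K)) = p :=
    IsLocalization.under_map_of_isPrime_disjoint (OO K).primeCompl (LL K) hpp hdisj
  have hA' : (A.map (algebraMap (Rg 4 K) (LL K))).comap (algebraMap (Rg 4 K) (LL K)) = p := by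
    have h1 : (A.map (algebraMap (Rg 4 K) (LL K))).comap (algebraMap (Rg 4 K) (LL K)) ≤ p := by
      rw [← hcomap]
      exact Ideal.comap_mono (Ideal.map_mono hAp)
    refine le_antisymm h1 (hp.2 ⟨hA.comap _, hIA.trans Ideal.le_comap_map⟩ h1)
  have heq : A.map (algebraMap (Rg 4 K) (LL K)) = p.map (algebraMap (Rg 4 K) (LL K)) := by
    have h1 := IsLocalization.map_under (OO K).primeCompl (LL K)
      (A.map (algebraMap (Rg 4 K) (LL K)))
    exact h1.symm.trans (congrArg (Ideal.map (algebraMap (Rg 4 K) (LL K))) hA')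
  refine ⟨heq, ?_, ?_⟩
  · rw [heq]
    exact IsLocalization.height_map_of_disjoint (OO K).primeCompl p hdisj
  · intro x hx
    rw [← hA']
    exact hx

lemma idealI_le_ptIdeal (K : Type*) [Field K] (a : Bool × Fin 4 × Fin 4 → K)
    (ha : ∀ i j : Fin 4, i ≠ j → eval a (comm 4 K i j) = 0) : idealI 4 K ≤ ptIdeal a := by
  unfold idealI
  rw [Ideal.span_le]
  rintro _ ⟨i, j, hij, rfl⟩
  rw [SetLike.mem_coe, mem_ptIdeal]
  exact ha i j hij

theorem main_colon (K : Type*) [Field K] [CharP K 2] (Q : Ideal (Rg 4 K))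
    (hQ : Q = (idealI 4 K).radical.colon (idealP 4 K : Set (Rg 4 K))) :
    ¬ (IsFRegular 2 (Rg 4 K ⧸ idealP 4 K) ∧ IsFRegular 2 (Rg 4 K ⧸ Q) ∧
      IsFRegular 2 (Rg 4 K ⧸ (idealP 4 K ⊔ Q))) := by
  rintro ⟨FP, FQ, FPQ⟩
  set P := idealP 4 K with hPdef
  set I := idealI 4 K with hI
  have hIuu : Ideal.span (Set.range (uu K)) = I := (idealI_eq K).symm
  -- inclusions
  have hIJ : I ≤ idealJ 4 K := by
    rw [hI]; unfold idealI idealJ
    apply Ideal.span_mono
    rintro _ ⟨i, j, -, rfl⟩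
    exact ⟨i, j, rfl⟩
  have hIP : I ≤ P := hIJ.trans Ideal.le_radical
  have hIQ : I ≤ Q := by
    intro x hx
    rw [hQ, Submodule.mem_colon]
    intro y _
    exact Ideal.le_radical (Ideal.mul_mem_right _ _ hx)
  have hQmul : ∀ x ∈ Q, ∀ y ∈ P, x * y ∈ I.radical := by
    intro x hx y hy
    rw [hQ, Submodule.mem_colon] at hx
    exact hx y hy
  have hmulQ : ∀ x, (∀ y ∈ P, x * y ∈ I.radical) → x ∈ Q := by
    intro x hx
    rw [hQ, Submodule.mem_colon]
    exact hx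
  have hPQ : P ⊓ Q ≤ I.radical := by
    rintro x ⟨hxP, hxQ⟩
    have h1 := hQmul x hxQ x hxP
    rw [← pow_two] at h1
    exact Ideal.radical_isRadical I ⟨2, h1⟩
  -- the point `pt1`
  have hI1 : I ≤ ptIdeal (pt1 K) := idealI_le_ptIdeal K _ fun i j _ => eval_pt1 K i j
  obtain ⟨p1, hp1, hp1pt⟩ := Ideal.exists_minimalPrimes_le hI1
  have hI2 : I ≤ ptIdeal (pt2 K) := idealI_le_ptIdeal K _ fun i j hij => by
    rw [eval_pt2, if_neg (by rintro ⟨rfl, rfl⟩; exact hij rfl),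
      if_neg (by rintro ⟨rfl, rfl⟩; exact hij rfl)]
  obtain ⟨p2, hp2, hp2pt⟩ := Ideal.exists_minimalPrimes_le hI2
  have hp1p : p1.IsPrime := hp1.1.1
  have hp2p : p2.IsPrime := hp2.1.1
  obtain ⟨D, hD, hDI⟩ := exists_delta K
  have hDJ : ∀ x ∈ idealJ 4 K, D * x ∈ I := by
    intro x hx
    unfold idealJ at hx
    refine Submodule.span_induction ?_ ?_ ?_ ?_ hx
    · rintro _ ⟨i, j, rfl⟩
      exact hDI i j
    · rw [mul_zero]; exact zero_mem _
    · intro a b _ _ ha hb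
      rw [mul_add]; exact add_mem ha hb
    · intro a b _ hb
      rw [smul_eq_mul, mul_left_comm]
      exact Ideal.mul_mem_left _ _ hb
  have hPp1 : P ≤ p1 := by
    intro x hx
    obtain ⟨k, hk⟩ := hx
    have h1 : D * x ^ k ∈ p1 := hp1.1.2 (hDJ _ hk)
    rcases hp1p.mem_or_mem h1 with h2 | h2
    · exact absurd (hp1pt h2) (by rw [mem_ptIdeal]; exact hD)
    · exact hp1p.mem_of_pow_mem _ h2
  have hc00 : comm 4 K 0 0 ∈ P := Ideal.le_radical (Ideal.subset_span ⟨0, 0, rfl⟩)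
  have hc00' : comm 4 K 0 0 ∉ ptIdeal (pt2 K) := by
    rw [mem_ptIdeal, eval_pt2]
    simp
  have hQp2 : Q ≤ p2 := by
    intro x hx
    have h1 : x * comm 4 K 0 0 ∈ p2 := by
      have := hQmul x hx _ hc00
      exact (hp2p.radical_le_iff).2 hp2.1.2 this
    rcases hp2p.mem_or_mem h1 with h2 | h2
    · exact h2
    · exact absurd (hp2pt h2) hc00'
  -- smoothness
  rw [← hIuu] at hp1 hp2
  obtain ⟨⟨β, hβpt, hβ⟩, hh1⟩ := (smooth_point (pt1 K) (uu K) (fun i => eval_pt1 K _ _)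
    (jac_pt1 K)).2 p1 hp1 hp1pt
  obtain ⟨⟨α, hαpt, hα⟩, hh2⟩ := (smooth_point (pt2 K) (uu K) (fun i => by
    have := hI2 (Ideal.subset_span ⟨i.1.1, i.1.2, i.2, rfl⟩)
    exact (mem_ptIdeal _ _).1 this) (jac_pt2 K)).2 p2 hp2 hp2pt
  have hcardO : Fintype.card Off = 12 := by decide
  rw [hcardO] at hh1 hh2
  rw [hIuu] at hp1 hp2 hβ hα
  have hPO : P ≤ OO K := hPp1.trans (minimalPrime_le_zero K p1 hp1)
  have hQO : Q ≤ OO K := hQp2.trans (minimalPrime_le_zero K p2 hp2)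
  have hPprime := isPrime_of_isFRegular 2 Nat.prime_two (OO K) P hPO FP
  have hQprime := isPrime_of_isFRegular 2 Nat.prime_two (OO K) Q hQO FQ
  obtain ⟨-, hhP, hcP⟩ := map_eq_of_minimal K P p1 hIP hPp1 hp1 hPprime
  obtain ⟨-, hhQ, hcQ⟩ := map_eq_of_minimal K Q p2 hIQ hQp2 hp2 hQprime
  refine final_local K P Q (hIuu ▸ hIP) (hIuu ▸ hIQ) hPO hQO hPprime hQprime
    (by rw [hIuu]; exact hPQ) ?_ ?_ α β ?_ ?_ ?_ ?_ ?_ FP FQ FPQ
  · rw [hhP]; exact_mod_cast hh1
  · rw [hhQ]; exact_mod_cast hh2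
  · intro x hx
    rw [hIuu]
    exact hβ x (hPp1 hx)
  · exact fun h => hβpt (hp1pt (hcP _ h))
  · apply hmulQ
    intro y hy
    exact Ideal.le_radical (hβ y (hPp1 hy))
  · intro x hx
    rw [hIuu]
    exact hα x (hQp2 hx)
  · exact fun h => hαpt (hp2pt (hcQ _ h))

end Pool.Agent.Helper10.NC
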